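import Pool.Agent.H20.MT.Stmts
import Pool.Agent.H20.MT.Rho

/-!
# Module TII of the project MTA: bilinear sums
-/

set_option autoImplicit false

namespace MTA
open Finset MeasureTheory

/-- twisted coefficients -/
private noncomputable def tw (a : ℕ → ℂ) (u : ℝ) (m : ℕ) : ℂ :=
  a m * Complex.exp (2 * Real.pi * Complex.I * u * (Real.log m : ℝ))

private theorem tii_norm_exp (u w : ℝ) :
    ‖Complex.exp (2 * Real.pi * Complex.I * u * (w : ℝ))‖ = 1 := by
  have : (2 * Real.pi * Complex.I * u * (w : ℝ) : ℂ) = ((2 * Real.pi * u * w : ℝ) : ℂ) * Complex.I := by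
    push_cast
    ring
  rw [this, Complex.norm_exp_ofReal_mul_I]

private theorem norm_tw (a : ℕ → ℂ) (u : ℝ) (m : ℕ) : ‖tw a u m‖ = ‖a m‖ := by
  unfold tw
  rw [norm_mul, tii_norm_exp, mul_one]

private theorem tw_cont (a : ℕ → ℂ) (m : ℕ) : Continuous (fun u : ℝ => tw a u m) := by
  unfold tw
  fun_prop

private theorem tii_prs_mono {r : ℕ} {F G : DirichletCharacter ℂ r → ℝ} (h : ∀ χ, F χ ≤ G χ) :
    prs r F ≤ prs r G := by
  unfold prs
  apply Finset.sum_le_sum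
  intro χ _
  split_ifs
  · exact h χ
  · exact le_rfl

private theorem tii_prs_nonneg {r : ℕ} {F : DirichletCharacter ℂ r → ℝ} (h : ∀ χ, 0 ≤ F χ) :
    0 ≤ prs r F := by
  unfold prs
  apply Finset.sum_nonneg
  intro χ _
  split_ifs
  · exact h χ
  · exact le_rfl

private theorem tii_prs_mul {r : ℕ} (c : ℝ) (F : DirichletCharacter ℂ r → ℝ) :
    prs r (fun χ => c * F χ) = c * prs r F := by
  unfold prs
  rw [Finset.mul_sum]
  apply Finset.sum_congr rfl
  intro χ _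
  split_ifs <;> simp

private theorem tii_prs_sum {r : ℕ} {ι : Type} (s : Finset ι) (F : ι → DirichletCharacter ℂ r → ℝ) :
    prs r (fun χ => ∑ i ∈ s, F i χ) = ∑ i ∈ s, prs r (F i) := by
  unfold prs
  rw [Finset.sum_comm]
  apply Finset.sum_congr rfl
  intro χ _
  split_ifs <;> simp

private theorem tii_prs_integrable {r : ℕ} (H : DirichletCharacter ℂ r → ℝ → ℝ)
    (h : ∀ χ, Integrable (H χ)) : Integrable (fun u => prs r (fun χ => H χ u)) := by
  unfold prs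
  apply integrable_finsetSum
  intro χ _
  split_ifs
  · exact h χ
  · exact integrable_zero _ _ _

private theorem tii_prs_integral {r : ℕ} (H : DirichletCharacter ℂ r → ℝ → ℝ)
    (h : ∀ χ, Integrable (H χ)) :
    prs r (fun χ => ∫ u, H χ u) = ∫ u, prs r (fun χ => H χ u) := by
  unfold prs
  rw [integral_finsetSum]
  · apply Finset.sum_congr rfl
    intro χ _
    split_ifs
    · rfl
    · simp
  · intro χ _
    split_ifs
    · exact h χ
    · exact integrable_zero _ _ _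

private theorem tii_norm_sum_le {r : ℕ} (χ : DirichletCharacter ℂ r) (a : ℕ → ℂ) (s : Finset ℕ) (u : ℝ) :
    ‖∑ m ∈ s, tw a u m * χ m‖ ≤ ∑ m ∈ s, ‖a m‖ := by
  refine (norm_sum_le _ _).trans (Finset.sum_le_sum fun m _ => ?_)
  rw [norm_mul, norm_tw]
  exact mul_le_of_le_one_right (norm_nonneg _) (χ.norm_le_one _)

private theorem tii_cont_sum {r : ℕ} (χ : DirichletCharacter ℂ r) (a : ℕ → ℂ) (s : Finset ℕ) :
    Continuous (fun u : ℝ => ∑ m ∈ s, tw a u m * χ m) := by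
  apply continuous_finsetSum
  intro m _
  exact (tw_cont a m).mul continuous_const

private theorem tii_integrable {r : ℕ} (χ : DirichletCharacter ℂ r) (a b : ℕ → ℂ) (s t : Finset ℕ)
    (Cg : ℝ) (hCg : 0 < Cg) :
    Integrable (fun u : ℝ => Cg * (1 + u ^ 2)⁻¹ *
      (‖∑ m ∈ s, tw a u m * χ m‖ * ‖∑ n ∈ t, tw b u n * χ n‖)) := by
  have hi : Integrable (fun u : ℝ => Cg * (1 + u ^ 2)⁻¹ *
      ((∑ m ∈ s, ‖a m‖) * (∑ n ∈ t, ‖b n‖))) :=
    (integrable_inv_one_add_sq.const_mul Cg).mul_const _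
  refine hi.mono' ?_ (Filter.Eventually.of_forall fun u => ?_)
  · apply Continuous.aestronglyMeasurable
    have h1 := (tii_cont_sum χ a s).norm
    have h2 := (tii_cont_sum χ b t).norm
    have h3 : Continuous fun u : ℝ => (1 + u ^ 2)⁻¹ := by
      apply Continuous.inv₀ (by fun_prop)
      intro u
      positivity
    exact (continuous_const.mul h3).mul (h1.mul h2)
  · have h0 : 0 ≤ Cg * (1 + u ^ 2)⁻¹ := by positivity
    rw [Real.norm_eq_abs, abs_of_nonneg (by positivity)]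
    apply mul_le_mul_of_nonneg_left _ h0
    exact mul_le_mul (tii_norm_sum_le χ a s u) (tii_norm_sum_le χ b t u) (norm_nonneg _)
      (Finset.sum_nonneg fun _ _ => norm_nonneg _)

private theorem tii_repr (g : ℝ → ℂ) (Cg : ℝ) (hCg : 0 < Cg) (hg : Continuous g)
    (hgb : ∀ u, ‖g u‖ ≤ Cg / (1 + u ^ 2))
    (hrep : ∀ w : ℝ, ((rho w : ℝ) : ℂ) = ∫ u, g u * Complex.exp (2 * Real.pi * Complex.I * u * w))
    (X : ℝ) (hX : 0 < X) (a b : ℕ → ℂ) {r : ℕ} (χ : DirichletCharacter ℂ r) (s t : Finset ℕ)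
    (hs : ∀ m ∈ s, 1 ≤ m) (ht : ∀ n ∈ t, 1 ≤ n) :
    ‖∑ m ∈ s, ∑ n ∈ t, a m * b n * χ (m * n : ℕ) * (rho (Real.log (m * n / X)) : ℂ)‖ ≤
      ∫ u, Cg * (1 + u ^ 2)⁻¹ *
        (‖∑ m ∈ s, tw a u m * χ m‖ * ‖∑ n ∈ t, tw b u n * χ n‖) := by
  have hint : ∀ (w : ℝ), Integrable (fun u : ℝ => g u * Complex.exp (2 * Real.pi * Complex.I * u * w)) := by
    intro w
    refine (integrable_inv_one_add_sq.const_mul Cg).mono' ?_ (Filter.Eventually.of_forall fun u => ?_)
    · apply Continuous.aestronglyMeasurable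
      exact hg.mul (by fun_prop)
    · rw [norm_mul, tii_norm_exp, mul_one, ← div_eq_mul_inv]
      exact hgb u
  have hkey : ∑ m ∈ s, ∑ n ∈ t, a m * b n * χ (m * n : ℕ) * (rho (Real.log (m * n / X)) : ℂ) =
      ∫ u, g u * Complex.exp (2 * Real.pi * Complex.I * u * (-Real.log X : ℝ)) *
        ((∑ m ∈ s, tw a u m * χ m) * (∑ n ∈ t, tw b u n * χ n)) := by
    have h1 : ∑ m ∈ s, ∑ n ∈ t, a m * b n * χ (m * n : ℕ) * (rho (Real.log (m * n / X)) : ℂ) =
        ∫ u, ∑ m ∈ s, ∑ n ∈ t, a m * b n * χ (m * n : ℕ) *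
          (g u * Complex.exp (2 * Real.pi * Complex.I * u * (Real.log (m * n / X) : ℝ))) := by
      rw [integral_finsetSum]
      · apply Finset.sum_congr rfl
        intro m _
        rw [integral_finsetSum]
        · apply Finset.sum_congr rfl
          intro n _
          rw [integral_const_mul, hrep]
        · intro n _
          exact (hint _).const_mul _
      · intro m _
        apply integrable_finsetSum
        intro n _
        exact (hint _).const_mul _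
    rw [h1]
    congr 1
    funext u
    rw [Finset.sum_mul_sum, Finset.mul_sum]
    apply Finset.sum_congr rfl
    intro m hm
    rw [Finset.mul_sum]
    apply Finset.sum_congr rfl
    intro n hn
    have hm0 : (m : ℝ) ≠ 0 := by
      have := hs m hm
      positivity
    have hn0 : (n : ℝ) ≠ 0 := by
      have := ht n hn
      positivity
    have hlog : Real.log (m * n / X) = -Real.log X + Real.log m + Real.log n := by
      rw [Real.log_div (mul_ne_zero hm0 hn0) hX.ne', Real.log_mul hm0 hn0]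
      ring
    have hexp : Complex.exp (2 * Real.pi * Complex.I * u * (Real.log (m * n / X) : ℝ)) =
        Complex.exp (2 * Real.pi * Complex.I * u * (-Real.log X : ℝ)) *
        Complex.exp (2 * Real.pi * Complex.I * u * (Real.log m : ℝ)) *
        Complex.exp (2 * Real.pi * Complex.I * u * (Real.log n : ℝ)) := by
      rw [← Complex.exp_add, ← Complex.exp_add, hlog]
      congr 1
      push_cast
      ring
    rw [hexp]
    unfold tw
    rw [Nat.cast_mul, map_mul]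
    ring
  rw [hkey]
  apply norm_integral_le_of_norm_le (tii_integrable χ a b s t Cg hCg)
  apply Filter.Eventually.of_forall
  intro u
  rw [norm_mul, norm_mul, tii_norm_exp, mul_one, norm_mul, ← div_eq_mul_inv]
  exact mul_le_mul_of_nonneg_right (hgb u) (by positivity)

private theorem tii_block (g : ℝ → ℂ) (Cg : ℝ) (hCg : 0 < Cg) (hg : Continuous g)
    (hgb : ∀ u, ‖g u‖ ≤ Cg / (1 + u ^ 2))
    (hrep : ∀ w : ℝ, ((rho w : ℝ) : ℂ) = ∫ u, g u * Complex.exp (2 * Real.pi * Complex.I * u * w))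
    (CB : ℝ)
    (hTIB : ∀ (Q M N : ℕ), 1 ≤ Q → 1 ≤ M → 1 ≤ N → ∀ a b : ℕ → ℂ,
      ∑ r ∈ Icc 1 Q, (r : ℝ) / r.totient * prs r (fun χ =>
        ‖∑ m ∈ Ioc M (2 * M), a m * χ m‖ * ‖∑ n ∈ Icc 1 N, b n * χ n‖) ≤
      CB * Real.sqrt (((M : ℝ) + Q ^ 2) * (N + Q ^ 2) * (∑ m ∈ Ioc M (2 * M), ‖a m‖ ^ 2) *
        ∑ n ∈ Icc 1 N, ‖b n‖ ^ 2))
    (X : ℝ) (hX : 0 < X) (a b : ℕ → ℂ) (Q M N : ℕ) (hQ : 1 ≤ Q) (hM : 1 ≤ M) (hN : 1 ≤ N) :
    ∑ r ∈ Icc 1 Q, (r : ℝ) / r.totient * prs r (fun χ =>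
      ‖∑ m ∈ Ioc M (2 * M), ∑ n ∈ Icc 1 N,
        a m * b n * χ (m * n : ℕ) * (rho (Real.log (m * n / X)) : ℂ)‖) ≤
      Cg * Real.pi * (CB * Real.sqrt (((M : ℝ) + Q ^ 2) * (N + Q ^ 2) *
        (∑ m ∈ Ioc M (2 * M), ‖a m‖ ^ 2) * ∑ n ∈ Icc 1 N, ‖b n‖ ^ 2)) := by
  set D : ℝ := CB * Real.sqrt (((M : ℝ) + Q ^ 2) * (N + Q ^ 2) *
        (∑ m ∈ Ioc M (2 * M), ‖a m‖ ^ 2) * ∑ n ∈ Icc 1 N, ‖b n‖ ^ 2) with hD
  have hstep : ∑ r ∈ Icc 1 Q, (r : ℝ) / r.totient * prs r (fun χ =>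
      ‖∑ m ∈ Ioc M (2 * M), ∑ n ∈ Icc 1 N,
        a m * b n * χ (m * n : ℕ) * (rho (Real.log (m * n / X)) : ℂ)‖) ≤
      ∑ r ∈ Icc 1 Q, (r : ℝ) / r.totient * prs r (fun χ =>
        ∫ u, Cg * (1 + u ^ 2)⁻¹ *
        (‖∑ m ∈ Ioc M (2 * M), tw a u m * χ m‖ * ‖∑ n ∈ Icc 1 N, tw b u n * χ n‖)) := by
    apply Finset.sum_le_sum
    intro r _
    apply mul_le_mul_of_nonneg_left _ (by positivity)
    apply tii_prs_mono
    intro χ
    apply tii_repr g Cg hCg hg hgb hrep X hX a b χ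
    · intro m hm
      rw [Finset.mem_Ioc] at hm
      omega
    · intro n hn
      exact (Finset.mem_Icc.mp hn).1
  refine hstep.trans ?_
  have hint : ∀ (r : ℕ) (χ : DirichletCharacter ℂ r), Integrable (fun u : ℝ => Cg * (1 + u ^ 2)⁻¹ *
        (‖∑ m ∈ Ioc M (2 * M), tw a u m * χ m‖ * ‖∑ n ∈ Icc 1 N, tw b u n * χ n‖)) :=
    fun r χ => tii_integrable χ a b _ _ Cg hCg
  have hswap : ∑ r ∈ Icc 1 Q, (r : ℝ) / r.totient * prs r (fun χ =>
        ∫ u, Cg * (1 + u ^ 2)⁻¹ *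
        (‖∑ m ∈ Ioc M (2 * M), tw a u m * χ m‖ * ‖∑ n ∈ Icc 1 N, tw b u n * χ n‖)) =
      ∫ u, ∑ r ∈ Icc 1 Q, (r : ℝ) / r.totient * prs r (fun χ => Cg * (1 + u ^ 2)⁻¹ *
        (‖∑ m ∈ Ioc M (2 * M), tw a u m * χ m‖ * ‖∑ n ∈ Icc 1 N, tw b u n * χ n‖)) := by
    rw [integral_finsetSum]
    · apply Finset.sum_congr rfl
      intro r _
      rw [integral_const_mul, tii_prs_integral _ (hint r)]
    · intro r _
      exact (tii_prs_integrable _ (hint r)).const_mul _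
  rw [hswap]
  have hpt : ∀ u : ℝ, ∑ r ∈ Icc 1 Q, (r : ℝ) / r.totient * prs r (fun χ => Cg * (1 + u ^ 2)⁻¹ *
        (‖∑ m ∈ Ioc M (2 * M), tw a u m * χ m‖ * ‖∑ n ∈ Icc 1 N, tw b u n * χ n‖)) ≤
      Cg * (1 + u ^ 2)⁻¹ * D := by
    intro u
    have h1 : ∑ r ∈ Icc 1 Q, (r : ℝ) / r.totient * prs r (fun χ => Cg * (1 + u ^ 2)⁻¹ *
        (‖∑ m ∈ Ioc M (2 * M), tw a u m * χ m‖ * ‖∑ n ∈ Icc 1 N, tw b u n * χ n‖)) =
        Cg * (1 + u ^ 2)⁻¹ * ∑ r ∈ Icc 1 Q, (r : ℝ) / r.totient * prs r (fun χ =>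
        ‖∑ m ∈ Ioc M (2 * M), tw a u m * χ m‖ * ‖∑ n ∈ Icc 1 N, tw b u n * χ n‖) := by
      rw [Finset.mul_sum]
      apply Finset.sum_congr rfl
      intro r _
      rw [tii_prs_mul]
      ring
    rw [h1]
    apply mul_le_mul_of_nonneg_left _ (by positivity)
    have h2 := hTIB Q M N hQ hM hN (tw a u) (tw b u)
    simp only [norm_tw] at h2
    exact h2
  calc ∫ u, ∑ r ∈ Icc 1 Q, (r : ℝ) / r.totient * prs r (fun χ => Cg * (1 + u ^ 2)⁻¹ *
        (‖∑ m ∈ Ioc M (2 * M), tw a u m * χ m‖ * ‖∑ n ∈ Icc 1 N, tw b u n * χ n‖))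
      ≤ ∫ u : ℝ, Cg * (1 + u ^ 2)⁻¹ * D := by
        apply integral_mono
        · apply integrable_finsetSum
          intro r _
          exact (tii_prs_integrable _ (hint r)).const_mul _
        · exact (integrable_inv_one_add_sq.const_mul Cg).mul_const _
        · exact hpt
    _ = Cg * Real.pi * D := by
        rw [integral_mul_const, integral_const_mul, integral_univ_inv_one_add_sq]

/-- the block of `TII` belonging to `m ∈ (2^i, 2^(i+1)]` -/
private noncomputable def tb (X : ℝ) (a b : ℕ → ℂ) {r : ℕ} (χ : DirichletCharacter ℂ r) (i : ℕ) : ℂ :=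
  ∑ m ∈ Ioc (2 ^ i) (2 * 2 ^ i), ∑ n ∈ Icc 1 ⌊8 * X / (2 ^ i : ℕ)⌋₊,
    a m * b n * χ (m * n : ℕ) * (rho (Real.log (m * n / X)) : ℂ)

private theorem tii_rho_zero (X : ℝ) (hX : 0 < X) (y : ℝ) (hy : 8 * X < y) :
    rho (Real.log (y / X)) = 0 := by
  apply rho_zero
  have h8 : (8 : ℝ) < y / X := by
    rw [lt_div_iff₀ hX]
    exact hy
  have h2 : (2 : ℝ) ≤ Real.log (y / X) := by
    rw [Real.le_log_iff_exp_le (by linarith)]
    have h1 := Real.exp_one_lt_d9
    have : Real.exp 2 = Real.exp 1 * Real.exp 1 := by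
      rw [← Real.exp_add]
      norm_num
    rw [this]
    have h0 := Real.exp_pos 1
    nlinarith
  exact h2.trans (le_abs_self _)

private theorem tii_decomp (X : ℝ) (hX : 2 ≤ X) (a b : ℕ → ℂ) (ha1 : a 1 = 0) {r : ℕ}
    (χ : DirichletCharacter ℂ r) (I : ℕ) (hI : 8 * X ≤ 2 ^ I) :
    TII X a b χ = ∑ i ∈ range I, tb X a b χ i := by
  have hX0 : 0 < X := by linarith
  -- long inner range
  have hinner : ∀ (m : ℕ) (c : ℝ), 0 < c → c ≤ m → 1 ≤ c → ∑ n ∈ Icc 1 ⌊8 * X / c⌋₊,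
      a m * b n * χ (m * n : ℕ) * (rho (Real.log (m * n / X)) : ℂ) =
      ∑ n ∈ Icc 1 ⌊8 * X⌋₊, a m * b n * χ (m * n : ℕ) * (rho (Real.log (m * n / X)) : ℂ) := by
    intro m c hc hcm hc1
    apply Finset.sum_subset
    · apply Finset.Icc_subset_Icc_right
      apply Nat.floor_le_floor
      exact div_le_self (by linarith) hc1
    · intro n hn hn'
      rw [Finset.mem_Icc] at hn hn'
      have hlt : ⌊8 * X / c⌋₊ < n := by
        by_contra h
        exact hn' ⟨hn.1, not_lt.mp h⟩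
      rw [Nat.floor_lt (by positivity)] at hlt
      rw [div_lt_iff₀ hc] at hlt
      have hn0 : (0 : ℝ) ≤ n := Nat.cast_nonneg n
      rw [tii_rho_zero X hX0 (m * n) (by nlinarith)]
      simp
  have h1 : TII X a b χ = ∑ m ∈ Icc 1 ⌊8 * X⌋₊, ∑ n ∈ Icc 1 ⌊8 * X⌋₊,
      a m * b n * χ (m * n : ℕ) * (rho (Real.log (m * n / X)) : ℂ) := by
    unfold TII
    apply Finset.sum_congr rfl
    intro m hm
    have hm1 : (1 : ℝ) ≤ m := by exact_mod_cast (Finset.mem_Icc.mp hm).1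
    exact hinner m m (by linarith) le_rfl hm1
  have h2 : ∀ i ∈ range I, tb X a b χ i = ∑ m ∈ Ioc (2 ^ i) (2 * 2 ^ i), ∑ n ∈ Icc 1 ⌊8 * X⌋₊,
      a m * b n * χ (m * n : ℕ) * (rho (Real.log (m * n / X)) : ℂ) := by
    intro i _
    unfold tb
    apply Finset.sum_congr rfl
    intro m hm
    rw [Finset.mem_Ioc] at hm
    apply hinner m ((2 ^ i : ℕ) : ℝ)
    · positivity
    · exact_mod_cast hm.1.le
    · exact_mod_cast Nat.one_le_two_pow
  rw [h1, Finset.sum_congr rfl h2]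
  -- telescoping of the ranges of `m`
  have h3 : ∀ J : ℕ, ∑ i ∈ range J, ∑ m ∈ Ioc (2 ^ i) (2 * 2 ^ i), ∑ n ∈ Icc 1 ⌊8 * X⌋₊,
      a m * b n * χ (m * n : ℕ) * (rho (Real.log (m * n / X)) : ℂ) =
      ∑ m ∈ Ioc 1 (2 ^ J), ∑ n ∈ Icc 1 ⌊8 * X⌋₊,
      a m * b n * χ (m * n : ℕ) * (rho (Real.log (m * n / X)) : ℂ) := by
    intro J
    induction J with
    | zero => simp
    | succ J ih =>
      rw [Finset.sum_range_succ, ih, pow_succ, mul_comm (2 ^ J) 2]
      rw [← Finset.sum_union]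
      · rw [Finset.Ioc_union_Ioc_eq_Ioc Nat.one_le_two_pow (by omega)]
      · rw [Finset.disjoint_left]
        intro m hm hm'
        rw [Finset.mem_Ioc] at hm hm'
        omega
  rw [h3 I]
  -- compare `Icc 1 ⌊8X⌋` with `Ioc 1 (2^I)`
  have hfl : ⌊8 * X⌋₊ ≤ 2 ^ I := by
    have : ((⌊8 * X⌋₊ : ℕ) : ℝ) ≤ ((2 ^ I : ℕ) : ℝ) := by
      push_cast
      exact (Nat.floor_le (by linarith)).trans hI
    exact_mod_cast this
  have h4 : ∑ m ∈ Icc 1 ⌊8 * X⌋₊, ∑ n ∈ Icc 1 ⌊8 * X⌋₊,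
      a m * b n * χ (m * n : ℕ) * (rho (Real.log (m * n / X)) : ℂ) =
      ∑ m ∈ Icc 1 (2 ^ I), ∑ n ∈ Icc 1 ⌊8 * X⌋₊,
      a m * b n * χ (m * n : ℕ) * (rho (Real.log (m * n / X)) : ℂ) := by
    apply Finset.sum_subset (Finset.Icc_subset_Icc_right hfl)
    intro m hm hm'
    rw [Finset.mem_Icc] at hm hm'
    have hlt : ⌊8 * X⌋₊ < m := by
      by_contra h
      exact hm' ⟨hm.1, not_lt.mp h⟩
    rw [Nat.floor_lt (by positivity)] at hlt
    apply Finset.sum_eq_zero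
    intro n hn
    have hn1 : (1 : ℝ) ≤ n := by exact_mod_cast (Finset.mem_Icc.mp hn).1
    have hm0 : (0 : ℝ) ≤ m := Nat.cast_nonneg m
    rw [tii_rho_zero X hX0 (m * n) (by nlinarith)]
    simp
  rw [h4]
  symm
  apply Finset.sum_subset
  · intro m hm
    rw [Finset.mem_Ioc] at hm
    rw [Finset.mem_Icc]
    omega
  · intro m hm hm'
    rw [Finset.mem_Icc] at hm
    rw [Finset.mem_Ioc] at hm'
    have : m = 1 := by omega
    subst this
    apply Finset.sum_eq_zero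
    intro n _
    rw [ha1]
    simp

private theorem tii_sqrt (Mr Nr Qr y R SA SB K l : ℝ) (hM : 0 ≤ Mr) (hN : 0 ≤ Nr) (hQ : 0 ≤ Qr)
    (hy : 1 ≤ y) (hR : 1 ≤ R) (hRy : R ≤ y) (hK : 1 ≤ K) (hl : 1 ≤ l)
    (hMN : Mr * Nr ≤ 8 * y ^ 5) (hM4 : Mr ≤ 8 * y ^ 4) (hN4 : Nr ≤ 16 * y ^ 4) (hQR : Qr ≤ 2 * R)
    (_hSA0 : 0 ≤ SA) (hSA : SA ≤ 54 * K * Mr * l ^ 3) (hSB0 : 0 ≤ SB) (hSB : SB ≤ 4 * Nr * l ^ 2) :
    Real.sqrt ((Mr + Qr ^ 2) * (Nr + Qr ^ 2) * SA * SB) ≤
      216 * K * l ^ 3 * (8 * y ^ 5 + 30 * R * (y ^ 4 * Real.sqrt y)) := by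
  have hy0 : 0 < y := by linarith
  have hsq : Real.sqrt y ^ 2 = y := Real.sq_sqrt hy0.le
  have hs0 : 0 ≤ Real.sqrt y := Real.sqrt_nonneg y
  apply Real.sqrt_le_iff.mpr
  refine ⟨by positivity, ?_⟩
  have hQ2 : Qr ^ 2 ≤ 4 * R ^ 2 := by nlinarith
  have h1 : SA * SB ≤ (216 * K * l ^ 3) ^ 2 * (Mr * Nr) := by
    calc SA * SB ≤ (54 * K * Mr * l ^ 3) * (4 * Nr * l ^ 2) :=
          mul_le_mul hSA hSB hSB0 (by positivity)
      _ = 216 * K * l ^ 5 * (Mr * Nr) := by ring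
      _ ≤ (216 * K * l ^ 3) ^ 2 * (Mr * Nr) := by
          apply mul_le_mul_of_nonneg_right _ (by positivity)
          have hl5 : l ^ 5 ≤ l ^ 6 := pow_le_pow_right₀ hl (by norm_num)
          have hKK : 216 * K ≤ (216 * K) ^ 2 := by nlinarith
          calc 216 * K * l ^ 5 ≤ (216 * K) ^ 2 * l ^ 6 :=
                mul_le_mul hKK hl5 (by positivity) (by positivity)
            _ = (216 * K * l ^ 3) ^ 2 := by ring
  have h2 : (Mr + Qr ^ 2) * (Nr + Qr ^ 2) * (Mr * Nr) ≤ (8 * y ^ 5 + 30 * R * (y ^ 4 * Real.sqrt y)) ^ 2 := by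
    have e1 : (Mr + Qr ^ 2) * (Nr + Qr ^ 2) * (Mr * Nr) =
        (Mr * Nr) ^ 2 + Qr ^ 2 * ((Mr + Nr) * (Mr * Nr)) + (Qr ^ 2) ^ 2 * (Mr * Nr) := by ring
    rw [e1]
    have t1 : (Mr * Nr) ^ 2 ≤ 64 * y ^ 10 := by
      calc (Mr * Nr) ^ 2 ≤ (8 * y ^ 5) ^ 2 := pow_le_pow_left₀ (by positivity) hMN 2
        _ = 64 * y ^ 10 := by ring
    have t2 : Qr ^ 2 * ((Mr + Nr) * (Mr * Nr)) ≤ 768 * R ^ 2 * y ^ 9 := by
      calc Qr ^ 2 * ((Mr + Nr) * (Mr * Nr)) ≤ (4 * R ^ 2) * ((24 * y ^ 4) * (8 * y ^ 5)) := by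
            apply mul_le_mul hQ2 _ (by positivity) (by positivity)
            apply mul_le_mul (by linarith) hMN (by positivity) (by positivity)
        _ = 768 * R ^ 2 * y ^ 9 := by ring
    have t3 : (Qr ^ 2) ^ 2 * (Mr * Nr) ≤ 128 * R ^ 2 * y ^ 9 := by
      calc (Qr ^ 2) ^ 2 * (Mr * Nr) ≤ (4 * R ^ 2) ^ 2 * (8 * y ^ 5) := by
            apply mul_le_mul (pow_le_pow_left₀ (by positivity) hQ2 2) hMN (by positivity) (by positivity)
        _ = 128 * R ^ 2 * (R ^ 2 * y ^ 5) := by ring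
        _ ≤ 128 * R ^ 2 * (y ^ 4 * y ^ 5) := by
            apply mul_le_mul_of_nonneg_left _ (by positivity)
            apply mul_le_mul_of_nonneg_right _ (by positivity)
            calc R ^ 2 ≤ y ^ 2 := pow_le_pow_left₀ (by linarith) hRy 2
              _ ≤ y ^ 4 := pow_le_pow_right₀ hy (by norm_num)
        _ = 128 * R ^ 2 * y ^ 9 := by ring
    have e2 : (8 * y ^ 5 + 30 * R * (y ^ 4 * Real.sqrt y)) ^ 2 =
        64 * y ^ 10 + 480 * R * y ^ 9 * Real.sqrt y + 900 * R ^ 2 * (y ^ 8 * Real.sqrt y ^ 2) := by ring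
    rw [e2, hsq]
    have e3 : (900 : ℝ) * R ^ 2 * (y ^ 8 * y) = 900 * (R ^ 2 * y ^ 9) := by ring
    rw [e3]
    have p1 : 0 ≤ 480 * R * y ^ 9 * Real.sqrt y := by positivity
    have p2 : 0 ≤ R ^ 2 * y ^ 9 := by positivity
    nlinarith
  calc (Mr + Qr ^ 2) * (Nr + Qr ^ 2) * SA * SB
      = (Mr + Qr ^ 2) * (Nr + Qr ^ 2) * (SA * SB) := by ring
    _ ≤ (Mr + Qr ^ 2) * (Nr + Qr ^ 2) * ((216 * K * l ^ 3) ^ 2 * (Mr * Nr)) :=
        mul_le_mul_of_nonneg_left h1 (by positivity)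
    _ = (216 * K * l ^ 3) ^ 2 * ((Mr + Qr ^ 2) * (Nr + Qr ^ 2) * (Mr * Nr)) := by ring
    _ ≤ (216 * K * l ^ 3) ^ 2 * (8 * y ^ 5 + 30 * R * (y ^ 4 * Real.sqrt y)) ^ 2 :=
        mul_le_mul_of_nonneg_left h2 (by positivity)
    _ = (216 * K * l ^ 3 * (8 * y ^ 5 + 30 * R * (y ^ 4 * Real.sqrt y))) ^ 2 := by ring

theorem TIIthm (hTIB : S_TIB) (hRHOF : S_RHOF) (hTAU2 : S_TAU2) : S_TII := by
  obtain ⟨CB, hCB, hB⟩ := hTIB
  obtain ⟨g, Cg, hCg, hgc, hgb, hrep⟩ := hRHOF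
  obtain ⟨C3, hC3, hT⟩ := hTAU2
  set K : ℝ := C3 + 1 with hK
  have hK1 : 1 ≤ K := by rw [hK]; linarith
  refine ⟨25 * (Cg * Real.pi * CB * (6480 * K)) * 32, 5, by positivity, ?_⟩
  intro X R1 a b hX hR1 ha hb ha0 hb0
  have hX0 : 0 < X := by linarith
  have hlX : Real.log 2 ≤ Real.log X := Real.log_le_log (by norm_num) hX
  have hlog2 : (1 / 2 : ℝ) ≤ Real.log 2 := by
    have := Real.log_two_gt_d9
    linarith
  have hlog2' : Real.log 2 ≤ 1 := by
    have := Real.log_two_lt_d9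
    linarith
  set l : ℝ := 2 * Real.log X with hl
  have hl1 : 1 ≤ l := by rw [hl]; linarith
  set y : ℝ := X ^ (1 / 5 : ℝ) with hy
  have hy1 : 1 ≤ y := Real.one_le_rpow (by linarith) (by norm_num)
  have hy0 : 0 < y := by linarith
  have hy5 : y ^ 5 = X := by
    rw [hy, ← Real.rpow_natCast, ← Real.rpow_mul hX0.le]
    norm_num
  have hlog8 : Real.log (8 * X) ≤ 2 * l := by
    rw [Real.log_mul (by norm_num) hX0.ne']
    have : Real.log 8 = 3 * Real.log 2 := by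
      rw [show (8 : ℝ) = 2 ^ 3 by norm_num, Real.log_pow]
      norm_num
    rw [this, hl]
    linarith
  have hlog16 : Real.log (16 * X) ≤ 3 * l := by
    rw [Real.log_mul (by norm_num) hX0.ne']
    have : Real.log 16 = 4 * Real.log 2 := by
      rw [show (16 : ℝ) = 2 ^ 4 by norm_num, Real.log_pow]
      norm_num
    rw [this, hl]
    linarith
  set I : ℕ := ⌈4 * l⌉₊ with hIdef
  have hI5 : (I : ℝ) ≤ 5 * l := by
    have := (Nat.ceil_lt_add_one (by positivity : (0 : ℝ) ≤ 4 * l)).le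
    rw [← hIdef] at this
    linarith
  have hI : 8 * X ≤ 2 ^ I := by
    have h1 : Real.log (8 * X) ≤ I * Real.log 2 := by
      have : 4 * l ≤ I := Nat.le_ceil _
      nlinarith
    rw [← Real.log_pow] at h1
    exact (Real.log_le_log_iff (by positivity) (by positivity)).mp h1
  -- the bound for a block
  set Bd : ℝ := Cg * Real.pi * CB * (6480 * K) * l ^ 3 * (X / R1 + X ^ (19 / 20 : ℝ)) with hBd
  have hBd0 : 0 ≤ Bd := by positivity
  set Rs : Finset ℕ := (Icc 1 ⌊y⌋₊).filter (fun r : ℕ => R1 < r) with hRs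
  have hblock : ∀ i j : ℕ, ∑ r ∈ Rs.filter (fun r : ℕ => R1 * 2 ^ j ≤ (r : ℝ) ∧ (r : ℝ) < 2 * (R1 * 2 ^ j)),
      1 / (r.totient : ℝ) * prs r (fun χ => ‖tb X a b χ i‖) ≤ Bd := by
    intro i j
    set R : ℝ := R1 * 2 ^ j with hR
    have hR1' : R1 ≤ R := by
      rw [hR]
      exact le_mul_of_one_le_right (by linarith) (one_le_pow₀ (by norm_num))
    have hR0 : 0 < R := by linarith
    by_cases hRy : R ≤ y
    swap
    · -- empty block
      rw [Finset.sum_eq_zero]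
      · exact hBd0
      intro r hr
      exfalso
      rw [Finset.mem_filter, hRs, Finset.mem_filter, Finset.mem_Icc] at hr
      have : (r : ℝ) ≤ y := (Nat.le_floor_iff hy0.le).mp hr.1.1.2
      linarith [hr.2.1]
    by_cases hi1 : ((2 * 2 ^ i : ℕ) : ℝ) ≤ y
    · -- all coefficients `a m` vanish
      have hz : ∀ (r : ℕ) (χ : DirichletCharacter ℂ r), tb X a b χ i = 0 := by
        intro r χ
        unfold tb
        apply Finset.sum_eq_zero
        intro m hm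
        rw [Finset.mem_Ioc] at hm
        have : a m = 0 := ha0 m (le_trans (by exact_mod_cast hm.2) hi1)
        rw [this]
        simp
      simp only [hz, norm_zero]
      rw [Finset.sum_eq_zero]
      · exact hBd0
      intro r _
      unfold prs
      simp
    by_cases hi2 : 8 * X / ((2 ^ i : ℕ) : ℝ) ≤ y
    · have hz : ∀ (r : ℕ) (χ : DirichletCharacter ℂ r), tb X a b χ i = 0 := by
        intro r χ
        unfold tb
        apply Finset.sum_eq_zero
        intro m _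
        apply Finset.sum_eq_zero
        intro n hn
        rw [Finset.mem_Icc] at hn
        have h1 : (n : ℝ) ≤ 8 * X / ((2 ^ i : ℕ) : ℝ) := (Nat.le_floor_iff (by positivity)).mp hn.2
        have : b n = 0 := hb0 n (h1.trans hi2)
        rw [this]
        simp
      simp only [hz, norm_zero]
      rw [Finset.sum_eq_zero]
      · exact hBd0
      intro r _
      unfold prs
      simp
    rw [not_le] at hi1 hi2
    set M : ℕ := 2 ^ i with hM
    set N : ℕ := ⌊8 * X / (M : ℝ)⌋₊ with hN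
    have hM1 : 1 ≤ M := Nat.one_le_two_pow
    have hM0 : (0 : ℝ) < M := by exact_mod_cast hM1
    have hM1r : (1 : ℝ) ≤ M := by exact_mod_cast hM1
    have hN1 : 1 ≤ N := by
      rw [hN, Nat.one_le_floor_iff]
      linarith
    have hN1r : (1 : ℝ) ≤ N := by exact_mod_cast hN1
    have hNle : (N : ℝ) ≤ 8 * X / M := Nat.floor_le (by positivity)
    set Q : ℕ := ⌊2 * R⌋₊ with hQ
    have hQ1 : 1 ≤ Q := by
      rw [hQ, Nat.one_le_floor_iff]
      linarith
    have hQle : (Q : ℝ) ≤ 2 * R := Nat.floor_le (by positivity)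
    -- pass to the weights `r / φ(r)`
    have hstep : ∑ r ∈ Rs.filter (fun r : ℕ => R ≤ (r : ℝ) ∧ (r : ℝ) < 2 * R),
        1 / (r.totient : ℝ) * prs r (fun χ => ‖tb X a b χ i‖) ≤
        1 / R * ∑ r ∈ Icc 1 Q, (r : ℝ) / r.totient * prs r (fun χ => ‖tb X a b χ i‖) := by
      rw [Finset.mul_sum]
      have hsub : Rs.filter (fun r : ℕ => R ≤ (r : ℝ) ∧ (r : ℝ) < 2 * R) ⊆ Icc 1 Q := by
        intro r hr
        rw [Finset.mem_filter, hRs, Finset.mem_filter, Finset.mem_Icc] at hr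
        rw [Finset.mem_Icc]
        exact ⟨hr.1.1.1, (Nat.le_floor_iff (by positivity)).mpr hr.2.2.le⟩
      refine le_trans (Finset.sum_le_sum fun r hr => ?_)
        (Finset.sum_le_sum_of_subset_of_nonneg hsub fun r _ _ => ?_)
      · rw [Finset.mem_filter] at hr
        rw [← mul_assoc]
        apply mul_le_mul_of_nonneg_right _ (tii_prs_nonneg fun χ => norm_nonneg _)
        rw [← mul_div_assoc]
        apply div_le_div_of_nonneg_right _ (Nat.cast_nonneg _)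
        rw [one_div, inv_mul_eq_div, le_div_iff₀ hR0]
        linarith [hr.2.1]
      · have := tii_prs_nonneg (F := fun χ : DirichletCharacter ℂ r => ‖tb X a b χ i‖)
          (fun χ => norm_nonneg _)
        positivity
    refine hstep.trans ?_
    have hbl := tii_block g Cg hCg hgc hgb hrep CB hB X hX0 a b Q M N hQ1 hM1 hN1
    have hbl' : ∑ r ∈ Icc 1 Q, (r : ℝ) / r.totient * prs r (fun χ => ‖tb X a b χ i‖) ≤
        Cg * Real.pi * (CB * Real.sqrt (((M : ℝ) + Q ^ 2) * (N + Q ^ 2) *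
        (∑ m ∈ Ioc M (2 * M), ‖a m‖ ^ 2) * ∑ n ∈ Icc 1 N, ‖b n‖ ^ 2)) := hbl
    -- sums of coefficients
    have hMN : (M : ℝ) * N ≤ 8 * y ^ 5 := by
      rw [hy5]
      calc (M : ℝ) * N ≤ M * (8 * X / M) := mul_le_mul_of_nonneg_left hNle hM0.le
        _ = 8 * X := by field_simp
    have hM4 : (M : ℝ) ≤ 8 * y ^ 4 := by
      rw [lt_div_iff₀ hM0, ← hy5] at hi2
      have : y * M < y * (8 * y ^ 4) := by nlinarith
      exact (lt_of_mul_lt_mul_left this hy0.le).le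
    have hN4 : (N : ℝ) ≤ 16 * y ^ 4 := by
      refine hNle.trans ?_
      rw [div_le_iff₀ hM0, ← hy5]
      have h2M : y < 2 * M := by
        have : ((2 * M : ℕ) : ℝ) = 2 * M := by push_cast; ring
        rw [← this]
        exact hi1
      have : 0 < y ^ 4 := by positivity
      nlinarith
    have hy4X : y ^ 4 ≤ X := by
      rw [← hy5]
      exact pow_le_pow_right₀ hy1 (by norm_num)
    have hSA : ∑ m ∈ Ioc M (2 * M), ‖a m‖ ^ 2 ≤ 54 * K * M * l ^ 3 := by
      have h1 : ∑ m ∈ Ioc M (2 * M), ‖a m‖ ^ 2 ≤ ∑ n ∈ Icc 1 (2 * M), (n.divisors.card : ℝ) ^ 2 := by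
        refine le_trans (Finset.sum_le_sum fun m _ => pow_le_pow_left₀ (norm_nonneg _) (ha m) 2)
          (Finset.sum_le_sum_of_subset_of_nonneg ?_ fun _ _ _ => by positivity)
        intro m hm
        rw [Finset.mem_Ioc] at hm
        rw [Finset.mem_Icc]
        omega
      refine h1.trans ((hT (2 * M) (by omega)).trans ?_)
      have h2 : Real.log ((2 * M : ℕ) : ℝ) ≤ 3 * l := by
        refine le_trans (Real.log_le_log (by positivity) ?_) hlog16
        push_cast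
        linarith
      have h2' : 0 ≤ Real.log ((2 * M : ℕ) : ℝ) := Real.log_natCast_nonneg _
      calc C3 * ((2 * M : ℕ) : ℝ) * Real.log ((2 * M : ℕ) : ℝ) ^ 3
          ≤ K * (2 * M) * (3 * l) ^ 3 := by
            push_cast at h2 h2' ⊢
            apply mul_le_mul _ (pow_le_pow_left₀ h2' h2 3) (by positivity) (by positivity)
            apply mul_le_mul_of_nonneg_right _ (by positivity)
            rw [hK]
            linarith
        _ = 54 * K * M * l ^ 3 := by ring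
    have hSB : ∑ n ∈ Icc 1 N, ‖b n‖ ^ 2 ≤ 4 * N * l ^ 2 := by
      have h1 : ∀ n ∈ Icc 1 N, ‖b n‖ ^ 2 ≤ (2 * l) ^ 2 := by
        intro n hn
        rw [Finset.mem_Icc] at hn
        apply pow_le_pow_left₀ (norm_nonneg _)
        refine (hb n hn.1).trans (le_trans (Real.log_le_log ?_ ?_) hlog8)
        · exact_mod_cast hn.1
        · calc (n : ℝ) ≤ N := by exact_mod_cast hn.2
            _ ≤ 8 * X / M := hNle
            _ ≤ 8 * X := div_le_self (by linarith) hM1r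
      calc ∑ n ∈ Icc 1 N, ‖b n‖ ^ 2 ≤ ∑ n ∈ Icc 1 N, (2 * l) ^ 2 := Finset.sum_le_sum h1
        _ = 4 * N * l ^ 2 := by
          rw [Finset.sum_const, Nat.card_Icc, nsmul_eq_mul, Nat.add_sub_cancel]
          ring
    have hsqrt := tii_sqrt (M : ℝ) N Q y R _ _ K l hM0.le (Nat.cast_nonneg _) (Nat.cast_nonneg _) hy1
      (by linarith) hRy hK1 hl1 hMN hM4 hN4 hQle (Finset.sum_nonneg fun _ _ => by positivity) hSA
      (Finset.sum_nonneg fun _ _ => by positivity) hSB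
    have hyy : y ^ 4 * Real.sqrt y ≤ X ^ (19 / 20 : ℝ) := by
      have h1 : y ^ 4 = X ^ (4 / 5 : ℝ) := by
        rw [hy, ← Real.rpow_natCast, ← Real.rpow_mul hX0.le]
        norm_num
      have h2 : Real.sqrt y = X ^ (1 / 10 : ℝ) := by
        rw [Real.sqrt_eq_rpow, hy, ← Real.rpow_mul hX0.le]
        norm_num
      rw [h1, h2, ← Real.rpow_add hX0]
      apply Real.rpow_le_rpow_of_exponent_le (by linarith)
      norm_num
    have hXR : X / R ≤ X / R1 := div_le_div_of_nonneg_left hX0.le (by linarith) hR1'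
    calc 1 / R * ∑ r ∈ Icc 1 Q, (r : ℝ) / r.totient * prs r (fun χ => ‖tb X a b χ i‖)
        ≤ 1 / R * (Cg * Real.pi * (CB *
            (216 * K * l ^ 3 * (8 * y ^ 5 + 30 * R * (y ^ 4 * Real.sqrt y))))) := by
          apply mul_le_mul_of_nonneg_left _ (by positivity)
          refine hbl'.trans ?_
          apply mul_le_mul_of_nonneg_left _ (by positivity)
          exact mul_le_mul_of_nonneg_left hsqrt hCB.le
      _ = Cg * Real.pi * CB * (216 * K) * l ^ 3 * (8 * (y ^ 5 / R) + 30 * (y ^ 4 * Real.sqrt y)) := by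
          field_simp
      _ ≤ Cg * Real.pi * CB * (216 * K) * l ^ 3 * (30 * (X / R1) + 30 * X ^ (19 / 20 : ℝ)) := by
          apply mul_le_mul_of_nonneg_left _ (by positivity)
          rw [hy5]
          have : 0 ≤ X / R1 := by positivity
          linarith
      _ = Bd := by
          rw [hBd]
          ring
  -- sum over the blocks
  have hpt : ∀ r ∈ Rs, 1 / (r.totient : ℝ) * prs r (fun χ => ‖TII X a b χ‖) ≤
      ∑ i ∈ range I, ∑ j ∈ range I, if R1 * 2 ^ j ≤ (r : ℝ) ∧ (r : ℝ) < 2 * (R1 * 2 ^ j) then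
        1 / (r.totient : ℝ) * prs r (fun χ => ‖tb X a b χ i‖) else 0 := by
    intro r hr
    rw [hRs, Finset.mem_filter, Finset.mem_Icc] at hr
    have hry : (r : ℝ) ≤ y := (Nat.le_floor_iff hy0.le).mp hr.1.2
    have ha1 : a 1 = 0 := ha0 1 (by rw [Nat.cast_one]; exact hy1)
    have h1 : prs r (fun χ => ‖TII X a b χ‖) ≤ ∑ i ∈ range I, prs r (fun χ => ‖tb X a b χ i‖) := by
      rw [← tii_prs_sum]
      apply tii_prs_mono
      intro χ
      rw [tii_decomp X hX a b ha1 χ I hI]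
      exact norm_sum_le _ _
    obtain ⟨j, hj1, hj2⟩ := exists_nat_pow_near (x := (r : ℝ) / R1) (y := 2)
      (by rw [le_div_iff₀ (by linarith)]; linarith [hr.2]) (by norm_num)
    have hjI : j ∈ range I := by
      rw [Finset.mem_range]
      have h2 : (2 : ℝ) ^ j < 2 ^ I := by
        calc (2 : ℝ) ^ j ≤ r / R1 := hj1
          _ ≤ r := div_le_self (Nat.cast_nonneg _) hR1
          _ ≤ y := hry
          _ ≤ X := by
            rw [← hy5]
            exact le_self_pow₀ hy1 (by norm_num)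
          _ < 8 * X := by linarith
          _ ≤ 2 ^ I := hI
      exact (pow_lt_pow_iff_right₀ (by norm_num)).mp h2
    have hc1 : R1 * 2 ^ j ≤ (r : ℝ) := by
      rw [le_div_iff₀ (by linarith)] at hj1
      linarith
    have hc2 : (r : ℝ) < 2 * (R1 * 2 ^ j) := by
      rw [div_lt_iff₀ (by linarith), pow_succ] at hj2
      linarith
    calc 1 / (r.totient : ℝ) * prs r (fun χ => ‖TII X a b χ‖)
        ≤ 1 / (r.totient : ℝ) * ∑ i ∈ range I, prs r (fun χ => ‖tb X a b χ i‖) :=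
          mul_le_mul_of_nonneg_left h1 (by positivity)
      _ = ∑ i ∈ range I, 1 / (r.totient : ℝ) * prs r (fun χ => ‖tb X a b χ i‖) := Finset.mul_sum _ _ _
      _ ≤ _ := by
          apply Finset.sum_le_sum
          intro i _
          have hnn : 0 ≤ 1 / (r.totient : ℝ) * prs r (fun χ => ‖tb X a b χ i‖) := by
            have := tii_prs_nonneg (F := fun χ : DirichletCharacter ℂ r => ‖tb X a b χ i‖)
              (fun χ => norm_nonneg _)
            positivity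
          have hsingle := Finset.single_le_sum (f := fun j => if R1 * 2 ^ j ≤ (r : ℝ) ∧
              (r : ℝ) < 2 * (R1 * 2 ^ j) then
              1 / (r.totient : ℝ) * prs r (fun χ => ‖tb X a b χ i‖) else 0)
            (fun j _ => by
              split_ifs
              · exact hnn
              · exact le_rfl) hjI
          rw [if_pos ⟨hc1, hc2⟩] at hsingle
          exact hsingle
  calc ∑ r ∈ Rs, 1 / (r.totient : ℝ) * prs r (fun χ => ‖TII X a b χ‖)
      ≤ ∑ r ∈ Rs, ∑ i ∈ range I, ∑ j ∈ range I,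
          (if R1 * 2 ^ j ≤ (r : ℝ) ∧ (r : ℝ) < 2 * (R1 * 2 ^ j) then
          1 / (r.totient : ℝ) * prs r (fun χ => ‖tb X a b χ i‖) else 0) := Finset.sum_le_sum hpt
    _ = ∑ i ∈ range I, ∑ j ∈ range I, ∑ r ∈ Rs,
          (if R1 * 2 ^ j ≤ (r : ℝ) ∧ (r : ℝ) < 2 * (R1 * 2 ^ j) then
          1 / (r.totient : ℝ) * prs r (fun χ => ‖tb X a b χ i‖) else 0) := by
        rw [Finset.sum_comm]
        apply Finset.sum_congr rfl
        intro i _
        rw [Finset.sum_comm]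
    _ ≤ ∑ i ∈ range I, ∑ j ∈ range I, Bd := by
        apply Finset.sum_le_sum
        intro i _
        apply Finset.sum_le_sum
        intro j _
        rw [← Finset.sum_filter]
        exact hblock i j
    _ = (I : ℝ) * I * Bd := by
        simp only [Finset.sum_const, Finset.card_range, nsmul_eq_mul]
        ring
    _ ≤ (5 * l) * (5 * l) * Bd := by
        apply mul_le_mul_of_nonneg_right _ hBd0
        exact mul_le_mul hI5 hI5 (Nat.cast_nonneg _) (by positivity)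
    _ = 25 * (Cg * Real.pi * CB * (6480 * K)) * 32 * Real.log X ^ 5 * (X / R1 + X ^ (19 / 20 : ℝ)) := by
        rw [hBd, hl]
        ring

end MTA
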