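import Pool.Agent.H20.MT.Stmts

/-!
# Module LBD of the project MTA: lower bound of `L(s,χ)` on the line `1 + 1 / log x`
-/

set_option autoImplicit false

namespace MTA
open Finset

private theorem lbd_lj {r : ℕ} (χ : DirichletCharacter ℂ r) (s : ℂ) :
    Lj χ 0 s = LSeries (fun n : ℕ => χ n) s := by
  unfold Lj
  congr 1
  funext n
  simp

private theorem lbd_three {r : ℕ} (χ : DirichletCharacter ℂ r) {e : ℝ} (he : 0 < e) (t : ℝ) :
    1 ≤ ‖Lj (1 : DirichletCharacter ℂ r) 0 ((1 + e : ℝ) : ℂ)‖ ^ 3 *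
      ‖Lj χ 0 (((1 + e : ℝ) : ℂ) + (t : ℂ) * Complex.I)‖ ^ 4 *
      ‖Lj (χ ^ 2) 0 (((1 + e : ℝ) : ℂ) + ((2 * t : ℝ) : ℂ) * Complex.I)‖ := by
  have h := DirichletCharacter.norm_LSeries_product_ge_one χ he t
  rw [norm_mul, norm_mul, norm_pow, norm_pow] at h
  rw [lbd_lj, lbd_lj, lbd_lj]
  have e1 : ((1 + e : ℝ) : ℂ) = 1 + (e : ℂ) := by push_cast; ring
  have e2 : ((1 + e : ℝ) : ℂ) + (t : ℂ) * Complex.I = 1 + (e : ℂ) + Complex.I * t := by
    push_cast; ring
  have e3 : ((1 + e : ℝ) : ℂ) + ((2 * t : ℝ) : ℂ) * Complex.I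
      = 1 + (e : ℂ) + 2 * Complex.I * t := by
    push_cast; ring
  rw [e2, e3, e1]
  exact h

private theorem lbd_num (F : ℝ → ℝ) (M κ : ℝ) (hM : 1 ≤ M) (hκ : 1 ≤ κ) (hF : ∀ e, 0 ≤ F e)
    (h4 : ∀ e, 0 < e → e ≤ 1 → e ^ 3 ≤ 8 * M * (F e) ^ 4)
    (hL : ∀ a b, 0 < a → a ≤ 1 → 0 < b → b ≤ 1 → |F a - F b| ≤ κ / 2 * |a - b|)
    (b : ℝ) (hb : 0 < b) (hb1 : b ≤ 1) : 1 / (16 * M * κ ^ 3) ≤ F b := by
  have hM0 : (0 : ℝ) < M := by linarith
  have hκ0 : (0 : ℝ) < κ := by linarith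
  set e : ℝ := 1 / (8 * M * κ ^ 4) with he
  set a0 : ℝ := 1 / (8 * M * κ ^ 3) with ha0
  have he0 : 0 < e := by positivity
  have ha0p : 0 < a0 := by positivity
  have hκ4 : 1 ≤ κ ^ 4 := one_le_pow₀ hκ
  have he1 : e ≤ 1 := by
    rw [he, div_le_one (by positivity)]
    nlinarith [mul_le_mul hM hκ4 (by norm_num) hM0.le]
  have hea : κ * e = a0 := by
    rw [he, ha0]
    field_simp
  have hpow : e ^ 3 = 8 * M * a0 ^ 4 := by
    rw [he, ha0]
    field_simp
  have hgen : ∀ u, 0 < u → u ≤ 1 → e ≤ u → a0 ≤ F u := by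
    intro u hu hu1 heu
    have h1 : 8 * M * a0 ^ 4 ≤ 8 * M * (F u) ^ 4 := by
      rw [← hpow]
      exact (pow_le_pow_left₀ he0.le heu 3).trans (h4 u hu hu1)
    have h2 : a0 ^ 4 ≤ (F u) ^ 4 := le_of_mul_le_mul_left h1 (by positivity)
    exact le_of_pow_le_pow_left₀ (by norm_num) (hF u) h2
  have hhalf : 1 / (16 * M * κ ^ 3) = a0 / 2 := by
    rw [ha0]
    field_simp
    norm_num
  rw [hhalf]
  rcases le_or_gt e b with h | h
  · have := hgen b hb hb1 h
    linarith
  · have h1 := hgen e he0 he1 le_rfl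
    have h2 := hL e b he0 he1 hb hb1
    have h3 : |e - b| ≤ e := by
      rw [abs_of_pos (by linarith)]
      linarith
    have h4' : κ / 2 * |e - b| ≤ a0 / 2 := by
      calc κ / 2 * |e - b| ≤ κ / 2 * e := by
            apply mul_le_mul_of_nonneg_left h3 (by positivity)
        _ = a0 / 2 := by rw [← hea]; ring
    have h5 := (abs_le.mp (h2.trans h4')).2
    linarith

theorem LBD (hLUP : S_LUP) (hZUP : S_ZUP) (hLIP : S_LIP) : S_LBD := by
  intro B
  obtain ⟨C1, hC1, h1⟩ := hLUP 0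
  obtain ⟨C2, hC2, h2⟩ := hZUP
  obtain ⟨C3, hC3, h3⟩ := hLIP
  set K1 : ℝ := C1 + 1 with hK1
  set K2 : ℝ := C2 + 1 with hK2
  set K3 : ℝ := C3 + 1 with hK3
  have hK1' : 1 ≤ K1 := by rw [hK1]; linarith
  have hK2' : 1 ≤ K2 := by rw [hK2]; linarith
  have hK3' : 1 ≤ K3 := by rw [hK3]; linarith
  -- the size of `x`
  have hev : ∀ᶠ l : ℝ in Filter.atTop, 4 * K3 * (Real.log 3 + B * Real.log l) ^ 2 ≤ l ^ (1 / 8 : ℝ) := by
    have ho : (fun l : ℝ => Real.log 3 + B * Real.log l) =o[Filter.atTop] (fun l : ℝ => l ^ (1 / 16 : ℝ)) := by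
      apply Asymptotics.IsLittleO.add
      · apply Asymptotics.isLittleO_const_left.mpr
        right
        have : Filter.Tendsto (fun l : ℝ => l ^ (1 / 16 : ℝ)) Filter.atTop Filter.atTop :=
          tendsto_rpow_atTop (by norm_num)
        exact tendsto_norm_atTop_atTop.comp this
      · exact (isLittleO_log_rpow_atTop (by norm_num)).const_mul_left _
    have hd : (0 : ℝ) < 1 / (2 * K3) := by positivity
    filter_upwards [ho.def hd, Filter.eventually_ge_atTop (0 : ℝ)] with l hl hl0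
    rw [Real.norm_eq_abs, Real.norm_eq_abs, abs_of_nonneg (Real.rpow_nonneg hl0 _)] at hl
    have h8 : (l ^ (1 / 16 : ℝ)) ^ 2 = l ^ (1 / 8 : ℝ) := by
      rw [← Real.rpow_natCast, ← Real.rpow_mul hl0]
      norm_num
    have hsq : (Real.log 3 + B * Real.log l) ^ 2 ≤ (1 / (2 * K3) * l ^ (1 / 16 : ℝ)) ^ 2 := by
      rw [← sq_abs (Real.log 3 + B * Real.log l)]
      exact pow_le_pow_left₀ (abs_nonneg _) hl 2
    rw [mul_pow, h8] at hsq
    have hl8 : 0 ≤ l ^ (1 / 8 : ℝ) := Real.rpow_nonneg hl0 _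
    calc 4 * K3 * (Real.log 3 + B * Real.log l) ^ 2
        ≤ 4 * K3 * ((1 / (2 * K3)) ^ 2 * l ^ (1 / 8 : ℝ)) :=
          mul_le_mul_of_nonneg_left hsq (by positivity)
      _ = 1 / K3 * l ^ (1 / 8 : ℝ) := by field_simp; norm_num
      _ ≤ 1 * l ^ (1 / 8 : ℝ) := by
          apply mul_le_mul_of_nonneg_right _ hl8
          rw [div_le_one (by positivity)]
          exact hK3'
      _ = l ^ (1 / 8 : ℝ) := one_mul _
  obtain ⟨x0, hx0⟩ := Filter.eventually_atTop.mp
    (Real.tendsto_log_atTop.eventually (hev.and (Filter.eventually_ge_atTop (1 : ℝ))))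
  refine ⟨1 / (768 * K1 * K2 * K3 ^ 3), x0, by positivity, ?_⟩
  intro x hx hG r _ hr χ hprim hχ t
  obtain ⟨hbig, hl1⟩ := hx0 x hx
  set l : ℝ := Real.log x with hl
  have hl0 : (0 : ℝ) < l := by linarith
  have hr1 : (1 : ℝ) ≤ r := by exact_mod_cast Nat.one_le_iff_ne_zero.mpr (NeZero.ne r)
  -- `LL ≥ 1`
  have hlog3 : (1 : ℝ) ≤ Real.log 3 := by
    have := Real.exp_one_lt_d9
    rw [Real.le_log_iff_exp_le (by norm_num)]
    linarith
  have hLLge : ∀ u : ℝ, 1 ≤ LL r u := by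
    intro u
    refine hlog3.trans ?_
    unfold LL
    apply Real.log_le_log (by norm_num)
    nlinarith [abs_nonneg u]
  set Lt : ℝ := LL r t with hLt
  have hLt1 : 1 ≤ Lt := hLLge t
  have hLt2 : LL r (2 * t) ≤ 2 * Lt := by
    have hb : LL r (2 * t) ≤ Real.log 2 + Lt := by
      rw [hLt]
      unfold LL
      rw [← Real.log_mul (by norm_num) (by positivity)]
      apply Real.log_le_log (by positivity)
      rw [abs_mul, abs_of_pos (by norm_num : (0 : ℝ) < 2)]
      nlinarith [abs_nonneg t]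
    have : Real.log 2 ≤ 1 := by
      have := Real.log_two_lt_d9
      linarith
    linarith
  set F : ℝ → ℝ := fun e => ‖Lj χ 0 (((1 + e : ℝ) : ℂ) + (t : ℂ) * Complex.I)‖ with hF
  set κ : ℝ := 2 * K3 * Lt ^ 2 with hκ
  have hLtsq : 1 ≤ Lt ^ 2 := one_le_pow₀ hLt1
  have hκ1 : 1 ≤ κ := by
    rw [hκ]
    nlinarith [mul_le_mul hK3' hLtsq (by norm_num) (by linarith)]
  have hFL : ∀ a b, 0 < a → a ≤ 1 → 0 < b → b ≤ 1 → |F a - F b| ≤ κ / 2 * |a - b| := by
    intro a b ha ha1 hb hb1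
    have hh := (h3 r χ hχ).1 (1 + a) (1 + b) t (by linarith) (by linarith) (by linarith) (by linarith)
    have h5 : |F a - F b| ≤ C3 * |1 + a - (1 + b)| * LL r t ^ 2 := (abs_norm_sub_norm_le _ _).trans hh
    rw [show 1 + a - (1 + b) = a - b by ring, ← hLt] at h5
    refine h5.trans ?_
    rw [hκ, hK3]
    nlinarith [mul_nonneg (abs_nonneg (a - b)) (sq_nonneg Lt)]
  -- the inequality with the fourth power, from a bound for the third factor
  have hfour : ∀ M : ℝ, 1 ≤ M →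
      (∀ e, 0 < e → e ≤ 1 →
        ‖Lj (χ ^ 2) 0 (((1 + e : ℝ) : ℂ) + ((2 * t : ℝ) : ℂ) * Complex.I)‖ ≤ M) →
      1 / (16 * M * κ ^ 3) ≤ F (1 / l) := by
    intro M hM hbd
    refine lbd_num F M κ hM hκ1 (fun e => norm_nonneg _) ?_ hFL (1 / l) (by positivity)
      (by rw [div_le_one hl0]; exact hl1)
    intro e he he1
    have h5 := lbd_three χ he t
    have h6 : ‖Lj (1 : DirichletCharacter ℂ r) 0 ((1 + e : ℝ) : ℂ)‖ ≤ 2 / e := by
      have := (h2 r ((1 + e : ℝ) : ℂ) (by rw [Complex.ofReal_re]; linarith)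
        (by rw [Complex.ofReal_re]; linarith)).2
      rw [Complex.ofReal_re] at this
      rw [show 1 + e - 1 = e by ring] at this
      exact this
    have h7 := hbd e he he1
    have hFe : 0 ≤ F e := norm_nonneg _
    have h8 : 1 ≤ (2 / e) ^ 3 * F e ^ 4 * M := by
      refine h5.trans ?_
      apply mul_le_mul _ h7 (norm_nonneg _) (by positivity)
      apply mul_le_mul_of_nonneg_right _ (by positivity)
      exact pow_le_pow_left₀ (norm_nonneg _) h6 3
    have h9 : (2 / e) ^ 3 * F e ^ 4 * M = 8 * M * F e ^ 4 / e ^ 3 := by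
      field_simp
      ring
    rw [h9, le_div_iff₀ (by positivity), one_mul] at h8
    exact h8
  have hgoal : 1 / (768 * K1 * K2 * K3 ^ 3) * l ^ (-(1 / 4) : ℝ) / Lt ^ 8 ≤ F (1 / l) := by
    have hl4 : 1 ≤ l ^ (1 / 4 : ℝ) := Real.one_le_rpow hl1 (by norm_num)
    have hl4n : l ^ (-(1 / 4) : ℝ) = 1 / l ^ (1 / 4 : ℝ) := by
      rw [Real.rpow_neg hl0.le]
      exact (one_div _).symm
    have hform : 1 / (768 * K1 * K2 * K3 ^ 3) * l ^ (-(1 / 4) : ℝ) / Lt ^ 8 =
        1 / (768 * K1 * K2 * K3 ^ 3 * l ^ (1 / 4 : ℝ) * Lt ^ 8) := by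
      rw [hl4n]
      field_simp
    by_cases hsq : χ ^ 2 = 1
    · by_cases ht : l ^ (-(1 / 4) : ℝ) ≤ |t|
      · -- real character, `t` not small
        have ht0 : t ≠ 0 := by
          intro h0
          rw [h0, abs_zero] at ht
          have := Real.rpow_pos_of_pos hl0 (-(1 / 4) : ℝ)
          linarith
        have htp : 0 < |t| := abs_pos.mpr ht0
        have hinv : 1 / |t| ≤ l ^ (1 / 4 : ℝ) := by
          rw [div_le_iff₀ htp]
          rw [hl4n, div_le_iff₀ (by positivity)] at ht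
          rw [mul_comm]
          exact ht
        have hbd : ∀ e, 0 < e → e ≤ 1 →
            ‖Lj (χ ^ 2) 0 (((1 + e : ℝ) : ℂ) + ((2 * t : ℝ) : ℂ) * Complex.I)‖ ≤
              6 * K2 * Lt ^ 2 * l ^ (1 / 4 : ℝ) := by
          intro e he he1
          rw [hsq]
          have hre : (((1 + e : ℝ) : ℂ) + ((2 * t : ℝ) : ℂ) * Complex.I).re = 1 + e := by simp
          have him : (((1 + e : ℝ) : ℂ) + ((2 * t : ℝ) : ℂ) * Complex.I).im = 2 * t := by simp
          have hh := (h2 r (((1 + e : ℝ) : ℂ) + ((2 * t : ℝ) : ℂ) * Complex.I)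
            (by rw [hre]; linarith) (by rw [hre]; linarith)).1
            (by rw [him]; exact mul_ne_zero (by norm_num) ht0)
          rw [him] at hh
          refine hh.trans ?_
          have hA : LL r (2 * t) ^ 2 ≤ 4 * Lt ^ 2 := by
            have := pow_le_pow_left₀ (by linarith [hLLge (2 * t)]) hLt2 2
            calc LL r (2 * t) ^ 2 ≤ (2 * Lt) ^ 2 := this
              _ = 4 * Lt ^ 2 := by ring
          have hB : 1 + 1 / |2 * t| ≤ 3 / 2 * l ^ (1 / 4 : ℝ) := by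
            rw [abs_mul, abs_of_pos (by norm_num : (0 : ℝ) < 2)]
            have : 1 / (2 * |t|) = 1 / 2 * (1 / |t|) := by field_simp
            rw [this]
            linarith
          calc C2 * LL r (2 * t) ^ 2 * (1 + 1 / |2 * t|)
              ≤ C2 * (4 * Lt ^ 2) * (3 / 2 * l ^ (1 / 4 : ℝ)) := by
                apply mul_le_mul (mul_le_mul_of_nonneg_left hA hC2.le) hB (by positivity)
                  (by positivity)
            _ = 6 * C2 * Lt ^ 2 * l ^ (1 / 4 : ℝ) := by ring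
            _ ≤ 6 * K2 * Lt ^ 2 * l ^ (1 / 4 : ℝ) := by
                apply mul_le_mul_of_nonneg_right _ (by positivity)
                apply mul_le_mul_of_nonneg_right _ (by positivity)
                rw [hK2]
                linarith
        have hM : 1 ≤ 6 * K2 * Lt ^ 2 * l ^ (1 / 4 : ℝ) := by
          have ha : 1 ≤ K2 * Lt ^ 2 := one_le_mul_of_one_le_of_one_le hK2' hLtsq
          have hb : 1 ≤ K2 * Lt ^ 2 * l ^ (1 / 4 : ℝ) := one_le_mul_of_one_le_of_one_le ha hl4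
          nlinarith
        have hh := hfour _ hM hbd
        refine le_trans ?_ hh
        rw [hform, hκ]
        apply one_div_le_one_div_of_le (by positivity)
        have hexp : 16 * (6 * K2 * Lt ^ 2 * l ^ (1 / 4 : ℝ)) * (2 * K3 * Lt ^ 2) ^ 3 =
            768 * K2 * K3 ^ 3 * l ^ (1 / 4 : ℝ) * Lt ^ 8 := by ring
        rw [hexp]
        have : 768 * K1 * K2 * K3 ^ 3 * l ^ (1 / 4 : ℝ) * Lt ^ 8 =
            K1 * (768 * K2 * K3 ^ 3 * l ^ (1 / 4 : ℝ) * Lt ^ 8) := by ring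
        rw [this]
        exact le_mul_of_one_le_left (by positivity) hK1'
      · -- real character, `t` small
        have ht' : |t| < l ^ (-(1 / 4) : ℝ) := not_le.mp ht
        have hl41 : l ^ (-(1 / 4) : ℝ) ≤ 1 := by
          rw [hl4n, div_le_one (by positivity)]
          exact hl4
        have hgood := hG r hr χ hprim hχ hsq
        rw [← hl] at hgood
        have hh := (h3 r χ hχ).2 (1 + 1 / l) t (by linarith [show 0 < 1 / l by positivity])
          (by
            have : 1 / l ≤ 1 := by rw [div_le_one hl0]; exact hl1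
            linarith) (by linarith)
        have hLL0 : LL r 0 ≤ Real.log 3 + B * Real.log l := by
          unfold LL
          rw [abs_zero, zero_add, Real.log_mul (by positivity) (by norm_num)]
          have : Real.log r ≤ B * Real.log l := by
            calc Real.log r ≤ Real.log (l ^ B) := Real.log_le_log (by linarith) hr
              _ = B * Real.log l := Real.log_pow _ _
          linarith
        have hLL0' : LL r 0 ^ 2 ≤ (Real.log 3 + B * Real.log l) ^ 2 :=
          pow_le_pow_left₀ (by linarith [hLLge 0]) hLL0 2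
        have hinv : 1 / l ≤ l ^ (-(1 / 4) : ℝ) := by
          rw [one_div, ← Real.rpow_neg_one]
          exact Real.rpow_le_rpow_of_exponent_le hl1 (by norm_num)
        have hsum : (1 + 1 / l - 1) + |t| ≤ 2 * l ^ (-(1 / 4) : ℝ) := by linarith
        have hl8 : l ^ (-(1 / 4) : ℝ) * l ^ (1 / 8 : ℝ) = l ^ (-(1 / 8) : ℝ) := by
          rw [← Real.rpow_add hl0]
          norm_num
        have hdiff : ‖Lj χ 0 (((1 + 1 / l : ℝ) : ℂ) + (t : ℂ) * Complex.I) - χ.LFunction 1‖ ≤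
            1 / 2 * l ^ (-(1 / 8) : ℝ) := by
          refine hh.trans ?_
          calc C3 * ((1 + 1 / l - 1) + |t|) * LL r 0 ^ 2
              ≤ K3 * (2 * l ^ (-(1 / 4) : ℝ)) * (Real.log 3 + B * Real.log l) ^ 2 := by
                apply mul_le_mul _ hLL0' (by positivity) (by positivity)
                apply mul_le_mul (by rw [hK3]; linarith) hsum _ (by linarith)
                have : 0 < 1 / l := by positivity
                linarith [abs_nonneg t]
            _ = 1 / 2 * l ^ (-(1 / 4) : ℝ) * (4 * K3 * (Real.log 3 + B * Real.log l) ^ 2) := by ring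
            _ ≤ 1 / 2 * l ^ (-(1 / 4) : ℝ) * l ^ (1 / 8 : ℝ) :=
                mul_le_mul_of_nonneg_left hbig (by positivity)
            _ = 1 / 2 * l ^ (-(1 / 8) : ℝ) := by rw [mul_assoc, hl8]
        have hlow : 1 / 2 * l ^ (-(1 / 8) : ℝ) ≤ F (1 / l) := by
          have h5 := norm_sub_norm_le (χ.LFunction 1)
            (χ.LFunction 1 - Lj χ 0 (((1 + 1 / l : ℝ) : ℂ) + (t : ℂ) * Complex.I))
          rw [sub_sub_cancel, ← norm_neg (χ.LFunction 1 - _), neg_sub] at h5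
          have h6 : F (1 / l) = ‖Lj χ 0 (((1 + 1 / l : ℝ) : ℂ) + (t : ℂ) * Complex.I)‖ := rfl
          rw [h6]
          have h7 : (-(1 / 8) : ℝ) = -(1 / 8) := rfl
          linarith
        refine le_trans ?_ hlow
        rw [hform]
        have h18 : l ^ (-(1 / 8) : ℝ) = 1 / l ^ (1 / 8 : ℝ) := by
          rw [Real.rpow_neg hl0.le]
          exact (one_div _).symm
        rw [h18]
        have hl8p : 1 ≤ l ^ (1 / 8 : ℝ) := Real.one_le_rpow hl1 (by norm_num)
        have hl84 : l ^ (1 / 8 : ℝ) ≤ l ^ (1 / 4 : ℝ) :=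
          Real.rpow_le_rpow_of_exponent_le hl1 (by norm_num)
        have : 1 / 2 * (1 / l ^ (1 / 8 : ℝ)) = 1 / (2 * l ^ (1 / 8 : ℝ)) := by field_simp
        rw [this]
        apply one_div_le_one_div_of_le (by positivity)
        have hK12 : 1 ≤ K1 * K2 := one_le_mul_of_one_le_of_one_le hK1' hK2'
        have hK123 : 1 ≤ K1 * K2 * K3 ^ 3 :=
          one_le_mul_of_one_le_of_one_le hK12 (one_le_pow₀ hK3')
        have hL8 : 1 ≤ Lt ^ 8 := one_le_pow₀ hLt1
        have hP : 1 ≤ K1 * K2 * K3 ^ 3 * Lt ^ 8 := one_le_mul_of_one_le_of_one_le hK123 hL8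
        calc 2 * l ^ (1 / 8 : ℝ) ≤ 768 * l ^ (1 / 4 : ℝ) := by nlinarith
          _ ≤ 768 * l ^ (1 / 4 : ℝ) * (K1 * K2 * K3 ^ 3 * Lt ^ 8) :=
              le_mul_of_one_le_right (by positivity) hP
          _ = 768 * K1 * K2 * K3 ^ 3 * l ^ (1 / 4 : ℝ) * Lt ^ 8 := by ring
    · -- complex character
      have hbd : ∀ e, 0 < e → e ≤ 1 →
          ‖Lj (χ ^ 2) 0 (((1 + e : ℝ) : ℂ) + ((2 * t : ℝ) : ℂ) * Complex.I)‖ ≤ 2 * K1 * Lt := by
        intro e he he1
        have hre : (((1 + e : ℝ) : ℂ) + ((2 * t : ℝ) : ℂ) * Complex.I).re = 1 + e := by simp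
        have him : (((1 + e : ℝ) : ℂ) + ((2 * t : ℝ) : ℂ) * Complex.I).im = 2 * t := by simp
        have hh := h1 r (χ ^ 2) hsq (((1 + e : ℝ) : ℂ) + ((2 * t : ℝ) : ℂ) * Complex.I)
          (by rw [hre]; linarith) (by rw [hre]; linarith)
        rw [him, zero_add, pow_one] at hh
        refine hh.trans ?_
        calc C1 * LL r (2 * t) ≤ K1 * (2 * Lt) := by
              apply mul_le_mul (by rw [hK1]; linarith) hLt2 (by linarith [hLLge (2 * t)])
                (by linarith)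
          _ = 2 * K1 * Lt := by ring
      have hM : 1 ≤ 2 * K1 * Lt := by
        have : 1 ≤ K1 * Lt := one_le_mul_of_one_le_of_one_le hK1' hLt1
        nlinarith
      have hh := hfour _ hM hbd
      refine le_trans ?_ hh
      rw [hform, hκ]
      apply one_div_le_one_div_of_le (by positivity)
      have hexp : 16 * (2 * K1 * Lt) * (2 * K3 * Lt ^ 2) ^ 3 = 256 * K1 * K3 ^ 3 * Lt ^ 7 := by ring
      rw [hexp]
      have hP : 1 ≤ K2 * l ^ (1 / 4 : ℝ) * Lt :=
        one_le_mul_of_one_le_of_one_le (one_le_mul_of_one_le_of_one_le hK2' hl4) hLt1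
      calc 256 * K1 * K3 ^ 3 * Lt ^ 7 ≤ 768 * K1 * K3 ^ 3 * Lt ^ 7 := by
            have : 0 ≤ K1 * K3 ^ 3 * Lt ^ 7 := by positivity
            nlinarith
        _ ≤ 768 * K1 * K3 ^ 3 * Lt ^ 7 * (K2 * l ^ (1 / 4 : ℝ) * Lt) :=
            le_mul_of_one_le_right (by positivity) hP
        _ = 768 * K1 * K2 * K3 ^ 3 * l ^ (1 / 4 : ℝ) * Lt ^ 8 := by ring
  exact hgoal

end MTA
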